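import Pool.Agent.H77.DP.Relv

/-!
# DELTA (MP_d362fb_lc), Theorem H: the second use of Lemma R

The monitor `i0` has been attached to the root of `r` over the frame `Z`; a sequence of steps from
this condition is cut down to a sequence of steps over `r` inside the levels below `k`.
-/

set_option autoImplicit false

namespace Pool.Agent.DL.P

open H5.DL

theorem relv_mon (r : Sys Prom) (i0 : ℕ) (Z : Fr Prom) (k : D) :
    relv (mon r i0 Z Set.univ i0) r.rt i0 (dn k) = mon r i0 Z (dn k) r.rt := by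
  have h : (relv (mon r i0 Z Set.univ i0) r.rt i0 (dn k)).K = (mon r i0 Z (dn k) r.rt).K := by
    funext j
    by_cases hj : j = i0
    · rw [hj, relv_K_self, mon_K_self]
    · rw [relv_K_of_ne _ _ _ _ hj, mon_K_of_ne _ _ _ _ _ hj, mon_K_of_ne _ _ _ _ _ hj]
  ext1
  · rfl
  · rfl
  · rfl
  · rfl
  · exact h
  · rfl
  · rfl

/-- the content of an event of a promise of a good frame is in the frame -/
theorem ev_in {Z : Fr Prom} (hZ : Good Z) {φ : Prom} (hφ : φ ∈ Z.Q) {m : ℕ} {e : Sys Prom}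
    (he : Ev φ m e) : ContIn e Z := by
  have h1 := hZ.z3 φ hφ
  cases φ with
  | nil k => exact he.elim
  | mk k c nd lb R =>
    obtain ⟨h2, -⟩ := he
    have hN : Set.range nd ⊆ Z.N := by rintro _ ⟨i, rfl⟩; exact (h1.2 i).2.1
    have hQ : Set.range c ⊆ Z.Q := by rintro _ ⟨i, rfl⟩; exact (h1.2 i).1
    have hL : Set.range lb ⊆ Z.L := by rintro _ ⟨i, rfl⟩; exact (h1.2 i).2.2
    refine ⟨fun j f hf => ?_, fun p q => ?_⟩
    · have h3 := h2.X j f hf
      cases f with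
      | nd x => exact hN h3
      | it x _ _ => exact hN h3
      | bl x _ => exact hN h3
      | ds x y => exact ⟨hN h3.1, hN h3.2⟩
      | pr ψ => exact hQ h3
      | rl ψ _ => exact hQ h3
    · have h3 := h2.Z p q
      exact ⟨h3.1.trans hN, h3.2.1.trans hQ, h3.2.2.trans hL⟩

/-- the invariant of the kept things in the second use of Lemma R -/
def KInv (Z : Fr Prom) (k : D) (i0 : ℕ) (y : Sys Prom) : Item → Prop
  | .c j => (y.E j i0 → Fr.Le (y.Z j i0) Z) ∧ (j ≠ i0 → y.K j ⊆ dn k)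
  | .x j x => j = i0 → x ∈ Z.N
  | .q j φ => j = i0 → φ ∈ Z.Q

theorem Fr.Le.refl {P : Type} (Z : Fr P) : Fr.Le Z Z := ⟨subset_rfl, subset_rfl, subset_rfl⟩

section

variable {r : Sys Prom} {y : ℕ → Sys Prom} {t : ℕ}
  {ev : ℕ → ℕ → Prom → ℕ → Sys Prom} {rho : ℕ → ℕ → Prom → ℕ → ℕ → ℕ} {T : Item → Prop}

theorem kinv {Z : Fr Prom} (hZ : Good Z) {k : D} (hk : ∀ d ∈ Z.L, Ll d k)
    (hr : Valid (fun ψ => Ll ψ.lab k ∧ Legal ψ) r) (hb : Below (dn k) r) {i0 : ℕ}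
    (hi0 : i0 ∉ r.J) (hs : IsSeq Legal y t) (hy0 : y 0 = mon r i0 Z Set.univ i0)
    (hj : JustBy y t ev rho) (hTc : ∀ j, ¬ T (.c j)) (hTx : ∀ j x, T (.x j x) → x ∈ Z.N)
    (hTq : ∀ j φ, T (.q j φ) → φ ∈ Z.Q) :
    ∀ i, Kept y t ev rho T i → KInv Z k i0 (y t) i := by
  have hne : r.rt ≠ i0 := fun h => hi0 (h ▸ hr.rt)
  have hm0 : ∀ i ≤ t, i0 ∈ (y i).J := fun i hi =>
    (hs.mono 0 i (Nat.zero_le i) hi).J (by rw [hy0]; exact Or.inl rfl)
  have hM := hs.mono 0 t (Nat.zero_le t) le_rfl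
  have hrt : ∀ i j φ m a, Rls y t i j φ m → a ∈ (ev i j φ m).J → rho i j φ m a = i0 →
      a = (ev i j φ m).rt ∧ j = i0 := by
    intro i j φ m a hR ha hai
    have hemb := (hj i j φ m hR).2
    by_contra hc
    have har : a ≠ (ev i j φ m).rt := by
      intro har
      apply hc
      refine ⟨har, ?_⟩
      rw [← hemb.rt, ← har]
      exact hai
    exact hemb.new a ha har (hai ▸ hm0 i hR.lt.le)
  intro i hi
  induction hi with
  | base_c j h =>
    refine ⟨fun hE => ?_, fun hji => ?_⟩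
    · have h1 : (y 0).E j i0 := (hM.E j h i0 (hm0 0 (Nat.zero_le t))).1 hE
      rw [hM.Z j i0 h1, hy0]
      have h2 : MEdge r i0 j i0 := by
        rw [hy0] at h1
        exact h1.resolve_left fun h2 => hi0 (hr.EJ _ _ (hr.Es _ _ h2))
      rw [mon_Z_pos _ _ _ _ _ h2]
      exact Fr.Le.refl Z
    · rw [hM.K j h, hy0, mon_K_of_ne _ _ _ _ _ hji]
      rw [hy0] at h
      exact hb j (h.resolve_left hji)
  | base_x j x h =>
    rintro rfl
    rw [hy0, mon_X_self] at h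
    exact h.2
  | base_q j φ h =>
    rintro rfl
    rw [hy0, mon_X_self] at h
    exact h.2
  | tgt i h =>
    cases i with
    | c j => exact absurd h (hTc j)
    | x j x => exact fun _ => hTx j x h
    | q j φ => exact fun _ => hTq j φ h
  | ev_c i j φ m a hR h1 h2 ha ih1 ih2 =>
    obtain ⟨he, hemb⟩ := hj i j φ m hR
    have hlegφ := ((hs.val i hR.lt.le).val j hR.mem).leg φ hR.pr
    have hev := okEv hlegφ.1 he
    have hM1 := hs.mono (i + 1) t hR.lt le_rfl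
    by_cases har : a = (ev i j φ m).rt
    · rw [har, hemb.rt]
      exact ih1
    · have haJ := hemb.J a ha
      refine ⟨fun hE => ?_, fun _ => ?_⟩
      · have hE1 : (y (i + 1)).E (rho i j φ m a) i0 :=
          (hM1.E _ haJ i0 (hm0 (i + 1) hR.lt)).1 hE
        obtain ⟨b, hab, hb0⟩ := hemb.E' a ha har i0 hE1
        have hbJ := hev.val.EJ b a (hev.val.Es a b hab)
        obtain ⟨hbr, hji⟩ := hrt i j φ m b hR hbJ hb0.symm
        have hφZ : φ ∈ Z.Q := ih2 hji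
        rw [hM1.Z _ _ hE1]
        rw [hb0, hemb.Z a b hab]
        exact (ev_in hZ hφZ he).Z a b
      · rw [hM1.K _ haJ, hemb.K a ha har]
        intro l hl
        have h3 : Ll l φ.lab := hev.lev a ha har hl
        have h4 : Ll φ.lab k := by
          by_cases hji : j = i0
          · exact hk _ (lab_in_frame hZ (ih2 hji))
          · refine ih1.2 hji ?_
            rw [(hs.mono i t hR.lt.le le_rfl).K j hR.mem]
            exact hlegφ.2
        exact h3.trans h4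
  | ev_x i j φ m a x hR h1 h2 ha hx ih1 ih2 =>
    intro hai
    obtain ⟨-, hji⟩ := hrt i j φ m a hR ha hai
    exact (ev_in hZ (ih2 hji) (hj i j φ m hR).1).X a _ hx
  | ev_q i j φ m a ψ hR h1 h2 ha hx ih1 ih2 =>
    intro hai
    obtain ⟨-, hji⟩ := hrt i j φ m a hR ha hai
    exact (ev_in hZ (ih2 hji) (hj i j φ m hR).1).X a _ hx
  | sh_x p q x hE hp hq hx hk' ih1 ih2 ih3 =>
    rintro rfl
    exact (ih1.1 hE).1 hx
  | sh_q p q φ hE hp hq hx hk' ih1 ih2 ih3 =>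
    rintro rfl
    exact (ih1.1 hE).2.1 hx

/-- the kept systems satisfy the invariant -/
theorem rinv_of_kinv {Z : Fr Prom} {k : D} {i0 : ℕ} (hs : IsSeq Legal y t)
    (hy0 : y 0 = mon r i0 Z Set.univ i0)
    (hI : ∀ i, Kept y t ev rho T i → KInv Z k i0 (y t) i) (s : ℕ) (hst : s ≤ t) :
    RInv Z k i0 ((y s).res (keptFam y t ev rho T)) := by
  have hm0 : i0 ∈ (y 0).J := by rw [hy0]; exact Or.inl rfl
  have hM := hs.mono 0 s (Nat.zero_le s) hst
  have hM' := hs.mono s t hst le_rfl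
  refine ⟨⟨hM.J hm0, .base_c i0 hm0⟩, ?_, ?_, ?_⟩
  · show (y s).K i0 = Set.univ
    rw [hM.K i0 hm0, hy0, mon_K_self]
  · rintro j ⟨hj, hjc⟩ hji
    show (y s).K j ⊆ dn k
    rw [← hM'.K j hj]
    exact (hI _ hjc).2 hji
  · rintro f ⟨-, -, hf⟩
    cases f with
    | nd x => exact hI _ hf rfl
    | it x _ _ => exact hI _ hf rfl
    | bl x _ => exact hI _ hf rfl
    | ds x y' => exact ⟨hI _ hf.1 rfl, hI _ hf.2 rfl⟩
    | pr ψ => exact hI _ hf rfl
    | rl ψ _ => exact hI _ hf rfl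

end

/-- the second use of Lemma R in Theorem H -/
theorem second_use {Z : Fr Prom} (hZ : Good Z) {k : D} (hk : ∀ d ∈ Z.L, Ll d k) {r : Sys Prom}
    (hr : Valid (fun ψ => Ll ψ.lab k ∧ Legal ψ) r) (hrt : r.K r.rt = dn k)
    (hb : Below (dn k) r) {i0 : ℕ} (hi0 : i0 ∉ r.J) {q : Sys Prom}
    (hq : Steps Legal (mon r i0 Z Set.univ i0) q) (B : Set (Fact Prom))
    (hB : B ⊆ q.X i0) (hBZ : ∀ f ∈ B, Z.Has f) (hBS : ∀ f ∈ B, f.Supp B)
    (hBi : ∀ x m v, .nd x ∈ B → .it x m v ∈ q.X i0 → .it x m v ∈ B)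
    (hBr : ∀ φ m, .pr φ ∈ B → .rl φ m ∈ q.X i0 → .rl φ m ∈ B) :
    ∃ r', StepsIn (fun ψ => Ll ψ.lab k ∧ Legal ψ) (dn k) r r' ∧ r'.n = q.n ∧
      Ex B (r'.X r'.rt) := by
  have hne : r.rt ≠ i0 := fun h => hi0 (h ▸ hr.rt)
  have hc : Valid Legal (mon r i0 Z Set.univ i0) := by
    refine mon_valid hr hi0 hZ isLowerSet_univ (fun l hl => ?_) (fun φ h => h.2) (Or.inl rfl)
    rw [hrt]
    exact ⟨fun _ => trivial, fun _ => hk l hl⟩
  obtain ⟨y, t, hy0, hyt, hys⟩ := exists_seq hq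
  have hs : IsSeq Legal y t := ⟨by rw [hy0]; exact hc, hys⟩
  obtain ⟨ev, rho, hj⟩ := exists_just hs
  let T : Item → Prop := fun i => match i with
    | .c _ => False
    | .x j x => j = i0 ∧ .nd x ∈ B
    | .q j φ => j = i0 ∧ .pr φ ∈ B
  have hqrt : q.rt = i0 := by
    rw [← hyt, (hs.mono 0 t (Nat.zero_le t) le_rfl).rt, hy0]
    rfl
  have hI : ∀ i, Kept y t ev rho T i → KInv Z k i0 (y t) i :=
    kinv hZ hk hr hb hi0 hs hy0 hj (fun j h => h) (fun j x h => hBZ _ h.2)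
      (fun j φ h => hBZ _ h.2)
  have hks := kept_seq (T := T) (fun φ h => h) hs hj
  have hk0 := kept_zero (ev := ev) (rho := rho) (T := T) hs
  have hR := rinv_of_kinv hs hy0 hI
  have hseq := relv_seq (i := r.rt) hZ hk hks hR (by
    show r.rt ∈ ((y 0).res (keptFam y t ev rho T)).J
    rw [hk0, hy0]
    exact Or.inr hr.rt)
  have hseq' : StepsIn (fun ψ => Ll ψ.lab k ∧ Legal ψ) (dn k) (mon r i0 Z (dn k) r.rt)
      (relv ((y t).res (keptFam y t ev rho T)) r.rt i0 (dn k)) := by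
    rw [← relv_mon, ← hy0, ← hk0]
    exact hseq
  have hfirst : Step (fun ψ => Ll ψ.lab k ∧ Legal ψ) r (mon r i0 Z (dn k) r.rt) := by
    refine ⟨mon_valid hr hi0 hZ (isLowerSet_dn k) (fun l _ => by rw [hrt]) (fun φ h => h)
      (Or.inr hr.rt), Or.inl (ext_mon hr hi0 Z (dn k))⟩
  have hbel : Below (dn k) (mon r i0 Z (dn k) r.rt) := by
    rintro j (rfl | hj')
    · rw [mon_K_self]
    · rw [mon_K_of_ne _ _ _ _ _ (fun h => hi0 (by rw [← h]; exact hj'))]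
      exact hb j hj'
  refine ⟨relv ((y t).res (keptFam y t ev rho T)) r.rt i0 (dn k),
    Relation.ReflTransGen.head ⟨hfirst, hbel⟩ hseq', by rw [← hyt]; rfl, ?_⟩
  -- the content at the root
  have hv : Valid Legal ((y t).res (keptFam y t ev rho T)) := hks.val t le_rfl
  have hMt := hs.mono 0 t (Nat.zero_le t) le_rfl
  have hrJ : r.rt ∈ (y 0).J := by rw [hy0]; exact Or.inr hr.rt
  have hiJ : i0 ∈ (y 0).J := by rw [hy0]; exact Or.inl rfl
  have hE0 : (y 0).E r.rt i0 := by rw [hy0]; exact Or.inr (Or.inl ⟨rfl, rfl⟩)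
  have hZ0 : (y t).Z r.rt i0 = Z := by
    rw [hMt.Z _ _ hE0, hy0, mon_Z_pos _ _ _ _ _ (Or.inl ⟨rfl, rfl⟩)]
  have hcr : (keptFam y t ev rho T).c r.rt := .base_c _ hrJ
  have hci : (keptFam y t ev rho T).c i0 := .base_c _ hiJ
  have hE1 : ((y t).res (keptFam y t ev rho T)).E r.rt i0 :=
    ⟨(hMt.E _ hrJ _ hiJ).2 hE0, hcr, hci⟩
  have hHas : ∀ f, Z.Has f → (((y t).res (keptFam y t ev rho T)).Z r.rt i0).Has f := by
    intro f hf
    show Fr.Has ⟨_, _, _⟩ f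
    cases f with
    | nd x => exact ⟨by rw [hZ0]; exact hf, hcr, hci⟩
    | it x _ _ => exact ⟨by rw [hZ0]; exact hf, hcr, hci⟩
    | bl x _ => exact ⟨by rw [hZ0]; exact hf, hcr, hci⟩
    | ds x y' => exact ⟨⟨by rw [hZ0]; exact hf.1, hcr, hci⟩, ⟨by rw [hZ0]; exact hf.2, hcr, hci⟩⟩
    | pr ψ => exact ⟨by rw [hZ0]; exact hf, hcr, hci⟩
    | rl ψ _ => exact ⟨by rw [hZ0]; exact hf, hcr, hci⟩
  have hKH : ∀ f ∈ B, (keptFam y t ev rho T).Has i0 f := by
    intro f hf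
    have h1 := hBS f hf
    cases f with
    | nd x => exact .tgt _ ⟨rfl, h1⟩
    | it x _ _ => exact .tgt _ ⟨rfl, h1⟩
    | bl x _ => exact .tgt _ ⟨rfl, h1⟩
    | ds x y' => exact ⟨.tgt _ ⟨rfl, h1.1⟩, .tgt _ ⟨rfl, h1.2⟩⟩
    | pr ψ => exact .tgt _ ⟨rfl, h1⟩
    | rl ψ _ => exact .tgt _ ⟨rfl, h1⟩
  have hBX : ∀ f ∈ B, f ∈ ((y t).res (keptFam y t ev rho T)).X i0 := fun f hf =>
    ⟨by rw [hyt]; exact hB hf, hci, hKH f hf⟩
  have hback : ∀ f, Z.Has f → f ∈ ((y t).res (keptFam y t ev rho T)).X r.rt → f ∈ q.X i0 := by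
    intro f hf h
    have := hv.sh _ _ hE1 f (hHas f hf) h
    rw [← hyt]
    exact this.1
  refine ⟨⟨fun f hf => ?_, fun x m v hx hv' => ?_⟩, fun φ m hφ hv' => ?_⟩
  · refine hv.sh i0 r.rt (hv.Es _ _ hE1) f ?_ (hBX f hf)
    rw [hv.symZ]
    exact hHas f (hBZ f hf)
  · exact hBi x m v hx (hback _ (show x ∈ Z.N from hBZ (.nd x) hx) hv')
  · exact hBr φ m hφ (hback _ (show φ ∈ Z.Q from hBZ (.pr φ) hφ) hv')

end Pool.Agent.DL.P
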