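import Pool.Agent.H77.DP.LemH
import Pool.Agent.H71.DL.Glue

/-!
# DELTA (MP_d362fb_lc), row P-H: Theorem H of note 5711, without hypotheses
-/

set_option autoImplicit false

namespace Pool.Agent.DL.P

/-- ROW P-H -/
theorem lemH_all : LemH := lemH Pool.Agent.H71.DL.glue_all

end Pool.Agent.DL.P
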