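import Pool.Agent.H77.DP.Second
import Pool.Agent.H7.DL.First
import Pool.Agent.H60.DL.Code
import Pool.Agent.DL.P.Rows

/-!
# DELTA (MP_d362fb_lc), row P-H: Theorem H of note 5711
-/

set_option autoImplicit false

namespace Pool.Agent.DL.P

open H5.DL Pool.Agent.H84.DL Pool.Agent.H60.DL

theorem Valid.legMono {Lg Lg' : Prom → Prop} {r : Sys Prom} (h : Valid Lg r)
    (hl : ∀ j φ, .pr φ ∈ r.X j → Lg φ → Lg' φ) : Valid Lg' r where
  fin := h.fin
  rt := h.rt
  Es := h.Es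
  EJ := h.EJ
  forest := h.forest
  low := h.low
  symZ := h.symZ
  good := h.good
  nX := h.nX
  nZ := h.nZ
  val j hj := (h.val j hj).mono fun φ hφ h1 h2 => ⟨hl j φ hφ h1, h2⟩
  adm := h.adm
  sh := h.sh

/-- all nodes of a system -/
def sysN (a : Sys Prom) : Set Node := (⋃ j, {x | .nd x ∈ a.X j}) ∪ ⋃ p, ⋃ q, (a.Z p q).N

/-- all promises of a system -/
def sysQ (a : Sys Prom) : Set Prom := (⋃ j, {φ | .pr φ ∈ a.X j}) ∪ ⋃ p, ⋃ q, (a.Z p q).Q

/-- all labels of the frames of a system -/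
def sysL (a : Sys Prom) : Set D := ⋃ p, ⋃ q, (a.Z p q).L

theorem Valid.X_finite {Lg : Prom → Prop} {a : Sys Prom} (h : Valid Lg a) (j : ℕ) :
    (a.X j).Finite := by
  by_cases hj : j ∈ a.J
  · exact (h.val j hj).fin
  · rw [h.nX j hj]; exact Set.finite_empty

theorem sysN_countable {Lg : Prom → Prop} {a : Sys Prom} (h : Valid Lg a) :
    (sysN a).Countable := by
  refine (Set.countable_iUnion fun j => ?_).union
    (Set.countable_iUnion fun p => Set.countable_iUnion fun q => ?_)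
  · exact ((h.X_finite j).preimage fun a _ b _ hab => Fact.nd.inj hab).countable
  · by_cases hE : a.E p q
    · exact (h.good p q hE).cN
    · rw [h.nZ p q hE]; exact Set.countable_empty

theorem sysQ_countable {Lg : Prom → Prop} {a : Sys Prom} (h : Valid Lg a) :
    (sysQ a).Countable := by
  refine (Set.countable_iUnion fun j => ?_).union
    (Set.countable_iUnion fun p => Set.countable_iUnion fun q => ?_)
  · exact ((h.X_finite j).preimage fun a _ b _ hab => Fact.pr.inj hab).countable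
  · by_cases hE : a.E p q
    · exact (h.good p q hE).cQ
    · rw [h.nZ p q hE]; exact Set.countable_empty

theorem sysL_countable {Lg : Prom → Prop} {a : Sys Prom} (h : Valid Lg a) :
    (sysL a).Countable := by
  refine Set.countable_iUnion fun p => Set.countable_iUnion fun q => ?_
  by_cases hE : a.E p q
  · exact (h.good p q hE).cL
  · rw [h.nZ p q hE]; exact Set.countable_empty

theorem contIn_of_sys {Lg : Prom → Prop} {a : Sys Prom} (h : Valid Lg a) {Z : Fr Prom}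
    (hN : sysN a ⊆ Z.N) (hQ : sysQ a ⊆ Z.Q) (hL : sysL a ⊆ Z.L) : ContIn a Z := by
  have hx : ∀ j x, .nd x ∈ a.X j → x ∈ Z.N := fun j x hx =>
    hN (Or.inl (Set.mem_iUnion.2 ⟨j, hx⟩))
  have hq : ∀ j φ, .pr φ ∈ a.X j → φ ∈ Z.Q := fun j φ hφ =>
    hQ (Or.inl (Set.mem_iUnion.2 ⟨j, hφ⟩))
  refine ⟨fun j f hf => ?_, fun p q => ⟨fun x h1 => ?_, fun x h1 => ?_, fun x h1 => ?_⟩⟩
  · have hj : j ∈ a.J := mem_J_of_nd h hf
    have hs := (h.val j hj).supp hf
    cases f with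
    | nd x => exact hx j x hs
    | it x _ _ => exact hx j x hs
    | bl x _ => exact hx j x hs
    | ds x y => exact ⟨hx j x hs.1, hx j y hs.2⟩
    | pr ψ => exact hq j ψ hs
    | rl ψ _ => exact hq j ψ hs
  · exact hN (Or.inr (Set.mem_iUnion.2 ⟨p, Set.mem_iUnion.2 ⟨q, h1⟩⟩))
  · exact hQ (Or.inr (Set.mem_iUnion.2 ⟨p, Set.mem_iUnion.2 ⟨q, h1⟩⟩))
  · exact hL (Set.mem_iUnion.2 ⟨p, Set.mem_iUnion.2 ⟨q, h1⟩⟩)

/-- THEOREM H for countable predense sets -/
theorem theoremH (A : ℕ → Set Pos) (hA : ∀ m, (A m).Countable)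
    (hm : ∀ m p, ∃ a ∈ A m, ∃ q, Stronger q a ∧ Stronger q p) :
    ∃ φ : Prom, Legal φ ∧ ∀ m e, Ev φ m e → ∃ a ∈ A m, ∃ h : IsCond e, Stronger ⟨e, h⟩ a := by
  classical
  have hE : (⋃ m, A m).Countable := Set.countable_iUnion hA
  -- bounds of the levels
  have hb0 : ∀ (a : Pos) (j : ℕ), ∃ b : D, j ∈ a.1.J → j ≠ a.1.rt → a.1.K j ⊆ dn b := by
    intro a j
    by_cases h : j ∈ a.1.J ∧ j ≠ a.1.rt
    · obtain ⟨b, hb⟩ := a.2.bdd j h.1 h.2
      exact ⟨b, fun _ _ => hb⟩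
    · exact ⟨(nonempty_W1.some, nonempty_W2.some), fun h1 h2 => absurd ⟨h1, h2⟩ h⟩
  choose bd hbd using hb0
  obtain ⟨Z, k, c, nd, lb, hZ, hN, hQ, hL, hc, hnd, hlb, hk, hfree⟩ := exists_good_enum
    (⋃ a ∈ ⋃ m, A m, sysN a.1) (⋃ a ∈ ⋃ m, A m, sysQ a.1)
    ((⋃ a ∈ ⋃ m, A m, sysL a.1) ∪ ⋃ a ∈ ⋃ m, A m, Set.range (bd a))
    (hE.biUnion fun a _ => sysN_countable a.2.val) (hE.biUnion fun a _ => sysQ_countable a.2.val)
    ((hE.biUnion fun a _ => sysL_countable a.2.val).union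
      (hE.biUnion fun a _ => Set.countable_range _))
  have hfr : (⟨Set.range nd, Set.range c, Set.range lb⟩ : Fr Prom) = Z := by
    rw [hc, hnd, hlb]
  let G : ℕ → Sys Prom → Prop := fun m e => (∀ j ∈ e.J, j ≠ e.rt → e.K j ⊆ dn k) ∧
    ∃ a ∈ A m, ∃ h : IsCond e, Stronger ⟨e, h⟩ a
  have hev : ∀ m e, Ev (mkP k c nd lb G) m e ↔ ContIn e Z ∧ G m e := by
    intro m e
    rw [ev_mkP, hfr]
  refine ⟨mkP k c nd lb G, (legal_iff _).2 ⟨⟨Z, hZ, hk, hfree, ?_⟩, ?_⟩, ?_⟩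
  · intro m e he
    obtain ⟨h1, h2, a, ha, h3, h4⟩ := (hev m e).1 he
    refine ⟨⟨h3.val.legMono fun j φ hφ h5 => ?_, h3.top, h2⟩, h1⟩
    exact ⟨hk _ (lab_in_frame hZ (h1.X j _ hφ)), h5⟩
  · intro r hr hrt hb m
    obtain ⟨i0, hi0⟩ : ∃ i0, i0 ∉ r.J := hr.fin.exists_notMem
    have hr' : Valid (fun ψ => Ll ψ.lab k ∧ Legal ψ) r := hr
    have hrt' : r.K r.rt = dn k := hrt
    have hb' : Below (dn k) r := hb
    have hcv : Valid Legal (mon r i0 Z Set.univ i0) := by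
      refine mon_valid hr' hi0 hZ isLowerSet_univ (fun l hl => ?_) (fun φ h => h.2) (Or.inl rfl)
      rw [hrt']
      exact ⟨fun _ => trivial, fun _ => hk l hl⟩
    have hcc : IsCond (mon r i0 Z Set.univ i0) := by
      refine ⟨hcv, mon_K_self _ _ _ _ _, fun j hj hne => ⟨k, ?_⟩⟩
      have hne' : j ≠ i0 := hne
      rw [mon_K_of_ne _ _ _ _ _ hne']
      exact hb' j (hj.resolve_left hne')
    obtain ⟨a, ha, q, ⟨σ1, h1⟩, ⟨σ2, h2⟩⟩ := hm m ⟨_, hcc⟩
    obtain ⟨y, t, hy0, hyt, hys⟩ := exists_seq h1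
    have hs : IsSeq Legal y t := ⟨by rw [hy0]; exact a.2.val, hys⟩
    obtain ⟨ev, rho, hj⟩ := exists_just hs
    have haE : a ∈ ⋃ m, A m := Set.mem_iUnion.2 ⟨m, ha⟩
    have haZ : ContIn (y 0) Z := by
      rw [hy0]
      refine contIn_of_sys a.2.val ?_ ?_ ?_
      · exact (Set.subset_biUnion_of_mem (u := fun a : Pos => sysN a.1) haE).trans hN
      · exact (Set.subset_biUnion_of_mem (u := fun a : Pos => sysQ a.1) haE).trans hQ
      · exact (Set.subset_biUnion_of_mem (u := fun a : Pos => sysL a.1) haE).trans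
          ((Set.subset_union_left).trans hL)
    have halev : ∀ j ∈ (y 0).J, j ≠ (y 0).rt → (y 0).K j ⊆ dn k := by
      rw [hy0]
      intro j hj hne l hl
      have h3 : Ll l (bd a j) := hbd a j hj hne hl
      refine h3.trans (hk _ (hL (Or.inr ?_)))
      exact Set.mem_biUnion haE ⟨j, rfl⟩
    obtain ⟨g1, g2, g3, g4, g5⟩ := first_use hs hj (by rw [hy0]; exact a.2) hZ hk haZ halev
    have hq2 : Steps Legal (mon r i0 Z Set.univ i0) (q.1.ren σ2) := h2
    have hq2rt : σ2.symm i0 = q.1.rt := by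
      have := steps_rt hq2
      have h3 : σ2 q.1.rt = i0 := this
      rw [← h3, Equiv.symm_apply_apply]
    have hq2X : (q.1.ren σ2).X i0 = q.1.X q.1.rt := by
      show q.1.X (σ2.symm i0) = _
      rw [hq2rt]
    have hyX : (y t).X (y t).rt = q.1.X q.1.rt := by
      rw [hyt]
      show q.1.X (σ1.symm (σ1 q.1.rt)) = _
      rw [Equiv.symm_apply_apply]
    obtain ⟨r', hst, hn, hex⟩ := second_use hZ hk hr' hrt' hb' hi0 hq2
      (((y t).res (keptFam y t ev rho (fun _ => False))).X (y t).rt) (by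
        rintro f ⟨hf, -, -⟩
        rw [hq2X, ← hyX]
        exact hf) (fun f hf => g1.X _ f hf)
      (fun f hf => (g2.val.val _ g2.val.rt).supp hf) (by
        rintro x m' v ⟨-, hxc, hx⟩ hv
        rw [hq2X, ← hyX] at hv
        exact ⟨hv, hxc, hx⟩) (by
        rintro φ m' ⟨-, hxc, hx⟩ hv
        rw [hq2X, ← hyX] at hv
        exact ⟨hv, hxc, hx⟩)
    refine ⟨r', (y t).res (keptFam y t ev rho (fun _ => False)), hst, (hev m _).2 ⟨g1, g3, a, ha,
      g2, ?_⟩, ?_, hex⟩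
    · exact stronger_of_steps (by rw [← hy0]; exact g4)
    · rw [g5, hn, hyt]
      rfl
  · intro m e he
    obtain ⟨h1, h2, h3⟩ := (hev m e).1 he
    exact h3

/-- ROW P-H from the countable chain condition -/
theorem lemH (hG : Glue) : LemH := by
  classical
  intro W hW hD
  -- a maximal set of pairwise incompatible conditions in `W m`
  have hmax : ∀ m, ∃ A : Set Pos, A ⊆ W m ∧ A.Countable ∧
      ∀ p, ∃ a ∈ A, ∃ q, Stronger q a ∧ Stronger q p := by
    intro m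
    obtain ⟨A, hA⟩ := zorn_subset {A : Set Pos | A ⊆ W m ∧
      ∀ r ∈ A, ∀ r' ∈ A, r ≠ r' → ¬ Compat r r'} (by
        intro c hc hch
        refine ⟨⋃₀ c, ⟨Set.sUnion_subset fun s hs => (hc hs).1, ?_⟩,
          fun s hs => Set.subset_sUnion_of_mem hs⟩
        rintro r ⟨s, hs, hrs⟩ r' ⟨s', hs', hrs'⟩ hne
        rcases hch.total hs hs' with h | h
        · exact (hc hs').2 r (h hrs) r' hrs' hne
        · exact (hc hs).2 r hrs r' (h hrs') hne)
    refine ⟨A, hA.prop.1, ccc hG A hA.prop.2, fun p => ?_⟩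
    obtain ⟨q, hq, hqp⟩ := hD m p
    by_contra hno
    push Not at hno
    have hq1 : ∀ a ∈ A, ¬ Compat q a := by
      rintro a ha ⟨s, hs1, hs2⟩
      exact hno a ha s hs2 (stronger_trans hs1 hqp)
    have hins : insert q A ∈ {A : Set Pos | A ⊆ W m ∧
        ∀ r ∈ A, ∀ r' ∈ A, r ≠ r' → ¬ Compat r r'} := by
      refine ⟨Set.insert_subset hq hA.prop.1, ?_⟩
      rintro r (rfl | hr) r' (rfl | hr') hne
      · exact absurd rfl hne
      · exact hq1 r' hr'
      · rintro ⟨s, hs1, hs2⟩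
        exact hq1 r hr ⟨s, hs2, hs1⟩
      · exact hA.prop.2 r hr r' hr' hne
    have hqA : q ∈ A := hA.le_of_ge hins (Set.subset_insert _ _) (Set.mem_insert _ _)
    exact hq1 q hqA ⟨q, stronger_refl q, stronger_refl q⟩
  choose A hA1 hA2 hA3 using hmax
  obtain ⟨φ, h1, h2⟩ := theoremH A hA2 hA3
  refine ⟨φ, h1, fun m e he => ?_⟩
  obtain ⟨a, ha, h3, h4⟩ := h2 m e he
  exact ⟨h3, hW m a _ (hA1 m ha) h4⟩

end Pool.Agent.DL.P
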