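import Pool.Agent.DL.P.Defs

/-!
# DELTA (MP_d362fb_lc), Theorem H: the monitor component

`mon r i0 Z K0 rt'` is the system `r` together with a new component `i0` attached to the root of
`r` with the frame `Z`, the level `K0` and the part of the root content which is in `Z`.
-/

set_option autoImplicit false

namespace Pool.Agent.DL.P

open H5.DL

/-- the edge between the root of `r` and the new component -/
def MEdge (r : Sys Prom) (i0 : ℕ) (p q : ℕ) : Prop :=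
  (p = r.rt ∧ q = i0) ∨ (p = i0 ∧ q = r.rt)

theorem MEdge.symm {r : Sys Prom} {i0 p q : ℕ} (h : MEdge r i0 p q) : MEdge r i0 q p := by
  rcases h with h | h
  · exact Or.inr ⟨h.2, h.1⟩
  · exact Or.inl ⟨h.2, h.1⟩

theorem medge_comm (r : Sys Prom) (i0 p q : ℕ) : MEdge r i0 p q ↔ MEdge r i0 q p :=
  ⟨MEdge.symm, MEdge.symm⟩

open Classical in
/-- `r` with a new component -/
noncomputable def mon (r : Sys Prom) (i0 : ℕ) (Z : Fr Prom) (K0 : Set D) (rt' : ℕ) :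
    Sys Prom where
  n := r.n
  rt := rt'
  J := insert i0 r.J
  E := fun p q => r.E p q ∨ MEdge r i0 p q
  K := fun j => if j = i0 then K0 else r.K j
  Z := fun p q => if MEdge r i0 p q then Z else r.Z p q
  X := fun j => if j = i0 then {f | f ∈ r.X r.rt ∧ Z.Has f} else r.X j

theorem mon_K_self (r : Sys Prom) (i0 : ℕ) (Z : Fr Prom) (K0 : Set D) (rt' : ℕ) :
    (mon r i0 Z K0 rt').K i0 = K0 := if_pos rfl

theorem mon_K_of_ne (r : Sys Prom) (i0 : ℕ) (Z : Fr Prom) (K0 : Set D) (rt' : ℕ) {j : ℕ}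
    (h : j ≠ i0) : (mon r i0 Z K0 rt').K j = r.K j := if_neg h

theorem mon_X_self (r : Sys Prom) (i0 : ℕ) (Z : Fr Prom) (K0 : Set D) (rt' : ℕ) :
    (mon r i0 Z K0 rt').X i0 = {f | f ∈ r.X r.rt ∧ Z.Has f} := if_pos rfl

theorem mon_X_of_ne (r : Sys Prom) (i0 : ℕ) (Z : Fr Prom) (K0 : Set D) (rt' : ℕ) {j : ℕ}
    (h : j ≠ i0) : (mon r i0 Z K0 rt').X j = r.X j := if_neg h

theorem mon_Z_pos (r : Sys Prom) (i0 : ℕ) (Z : Fr Prom) (K0 : Set D) (rt' : ℕ) {p q : ℕ}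
    (h : MEdge r i0 p q) : (mon r i0 Z K0 rt').Z p q = Z := if_pos h

theorem mon_Z_neg (r : Sys Prom) (i0 : ℕ) (Z : Fr Prom) (K0 : Set D) (rt' : ℕ) {p q : ℕ}
    (h : ¬ MEdge r i0 p q) : (mon r i0 Z K0 rt').Z p q = r.Z p q := if_neg h

theorem ValX.mono {Lg Lg' : Prom → Prop} {n : ℕ} {K K' : Set D} {X : Set (Fact Prom)}
    (h : ValX Lg n K X) (hl : ∀ φ, .pr φ ∈ X → Lg φ → φ.lab ∈ K → Lg' φ ∧ φ.lab ∈ K') :
    ValX Lg' n K' X where
  fin := h.fin
  itb := h.itb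
  blx := h.blx
  dsx := h.dsx
  rlx := h.rlx
  fn := h.fn
  leg φ hφ := hl φ hφ (h.leg φ hφ).1 (h.leg φ hφ).2

theorem ValX.part {Lg : Prom → Prop} {n : ℕ} {K : Set D} {X : Set (Fact Prom)}
    (h : ValX Lg n K X) (Z : Fr Prom) : ValX Lg n K {f | f ∈ X ∧ Z.Has f} where
  fin := h.fin.subset fun _ hf => hf.1
  itb x m v hf := ⟨⟨(h.itb x m v hf.1).1, hf.2⟩, (h.itb x m v hf.1).2⟩
  blx x m hf := ⟨h.blx x m hf.1, hf.2⟩
  dsx x y hf := ⟨⟨(h.dsx x y hf.1).1, hf.2.1⟩, ⟨(h.dsx x y hf.1).2, hf.2.2⟩⟩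
  rlx φ m hf := ⟨h.rlx φ m hf.1, hf.2⟩
  fn x m v v' h1 h2 := h.fn x m v v' h1.1 h2.1
  leg φ hf := h.leg φ hf.1

theorem forest_add {J : Set ℕ} {E : ℕ → ℕ → Prop} (hf : Forest J E) (hEJ : ∀ p q, E p q → p ∈ J)
    (hEs : ∀ p q, E p q → E q p) {i i0 : ℕ} (hi : i ∈ J) (hi0 : i0 ∉ J) (hfin : J.Finite) :
    Forest (insert i0 J) (fun p q => E p q ∨ ((p = i ∧ q = i0) ∨ (p = i0 ∧ q = i))) := by
  have hne : i ≠ i0 := fun h => hi0 (h ▸ hi)
  have hE1 : ∀ p q, E p q → p ≠ i0 ∧ q ≠ i0 := fun p q h =>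
    ⟨fun h' => hi0 (h' ▸ hEJ p q h), fun h' => hi0 (h' ▸ hEJ q p (hEs p q h))⟩
  intro b hb
  rcases hb with rfl | hb
  · -- the new component is the base
    obtain ⟨rk, h1, h2, h3⟩ := hf i hi
    refine ⟨fun v => if v = b then 0 else rk v + 1, ?_, ?_, ?_⟩
    · intro v _ hvb
      simp [hvb]
    · rintro p q (h | ⟨rfl, rfl⟩ | ⟨rfl, rfl⟩)
      · obtain ⟨hp, hq⟩ := hE1 p q h
        have := h2 p q h
        simp only [hp, hq, if_false]
        omega
      · simp [hne]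
      · simp [hne]
    · rintro v a a' (h | ⟨rfl, rfl⟩ | ⟨rfl, rfl⟩) (h' | ⟨h4, rfl⟩ | ⟨h4, rfl⟩) h5 h6
      · obtain ⟨hp, hq⟩ := hE1 v a h
        obtain ⟨_, hq'⟩ := hE1 v a' h'
        simp only [hp, hq, hq', if_false] at h5 h6
        exact h3 v a a' h h' (by omega) (by omega)
      · obtain ⟨hp, hq⟩ := hE1 v a h
        exfalso
        subst h4
        simp only [hp, hq, if_false] at h5
        have := h1 a (hEJ a v (hEs _ _ h)) (fun h7 => h2 v a h (by rw [h7]))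
        omega
      · obtain ⟨hp, hq⟩ := hE1 v a h
        exact (hp h4).elim
      · obtain ⟨hp, hq⟩ := hE1 v a' h'
        exfalso
        simp only [hp, hq, if_false] at h6
        have := h1 a' (hEJ a' v (hEs _ _ h')) (fun h7 => h2 v a' h' (by rw [h7]))
        omega
      · rfl
      · exact (hne h4).elim
      · exact ((hE1 v a' h').1 rfl).elim
      · exact (hne h4.symm).elim
      · rfl
  · obtain ⟨rk, h1, h2, h3⟩ := hf b hb
    obtain ⟨M, hM⟩ : ∃ M, ∀ v ∈ J, rk v < M := by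
      obtain ⟨M, hM⟩ := (hfin.image rk).bddAbove
      exact ⟨M + 1, fun v hv => Nat.lt_succ_of_le (hM ⟨v, hv, rfl⟩)⟩
    have hbne : b ≠ i0 := fun h => hi0 (h ▸ hb)
    refine ⟨fun v => if v = i0 then M else rk v, ?_, ?_, ?_⟩
    · rintro v (rfl | hv) hvb
      · simp only [if_true, hbne, if_false]
        exact hM b hb
      · have hv0 : v ≠ i0 := fun h => hi0 (h ▸ hv)
        simp only [hv0, hbne, if_false]
        exact h1 v hv hvb
    · rintro p q (h | ⟨rfl, rfl⟩ | ⟨rfl, rfl⟩)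
      · obtain ⟨hp, hq⟩ := hE1 p q h
        simp only [hp, hq, if_false]
        exact h2 p q h
      · simp only [hne, if_true, if_false]
        exact (hM _ hi).ne
      · simp only [hne, if_true, if_false]
        exact (hM _ hi).ne'
    · rintro v a a' (h | ⟨rfl, rfl⟩ | ⟨rfl, rfl⟩) (h' | ⟨h4, rfl⟩ | ⟨h4, rfl⟩) h5 h6
      · obtain ⟨hp, hq⟩ := hE1 v a h
        obtain ⟨_, hq'⟩ := hE1 v a' h'
        simp only [hp, hq, hq', if_false] at h5 h6
        exact h3 v a a' h h' h5 h6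
      · obtain ⟨hp, hq⟩ := hE1 v a h
        exfalso
        simp only [hp, if_true, if_false] at h6
        have := hM v (hEJ v a h)
        omega
      · obtain ⟨hp, hq⟩ := hE1 v a h
        exact (hp h4).elim
      · obtain ⟨hp, hq⟩ := hE1 v a' h'
        exfalso
        simp only [hp, if_true, if_false] at h5
        have := hM v (hEJ v a' h')
        omega
      · rfl
      · exact (hne h4).elim
      · exact ((hE1 v a' h').1 rfl).elim
      · exact (hne h4.symm).elim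
      · rfl

/-- the system with the monitor is valid -/
theorem mon_valid {Lg Lg' : Prom → Prop} {r : Sys Prom} (hr : Valid Lg r) {i0 : ℕ}
    (hi0 : i0 ∉ r.J) {Z : Fr Prom} (hZ : Good Z) {K0 : Set D} (hK0 : IsLowerSet K0)
    (hKZ : ∀ l ∈ Z.L, l ∈ r.K r.rt ↔ l ∈ K0) (hLg : ∀ φ, Lg φ → Lg' φ) {rt' : ℕ}
    (hrt : rt' ∈ insert i0 r.J) : Valid Lg' (mon r i0 Z K0 rt') := by
  have hne : r.rt ≠ i0 := fun h => hi0 (h ▸ hr.rt)
  have hE1 : ∀ p q, r.E p q → p ≠ i0 ∧ q ≠ i0 := fun p q h =>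
    ⟨fun h' => hi0 (h' ▸ hr.EJ p q h), fun h' => hi0 (h' ▸ hr.EJ q p (hr.Es p q h))⟩
  have hME : ∀ p q, r.E p q → ¬ MEdge r i0 p q := by
    intro p q h h'
    rcases h' with h' | h'
    · exact (hE1 p q h).2 h'.2
    · exact (hE1 p q h).1 h'.1
  refine ⟨hr.fin.insert i0, hrt, ?_, ?_, ?_, ?_, ?_, ?_, ?_, ?_, ?_, ?_, ?_⟩
  · rintro p q (h | h)
    · exact Or.inl (hr.Es p q h)
    · exact Or.inr h.symm
  · rintro p q (h | h | h)
    · exact Or.inr (hr.EJ p q h)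
    · rw [h.1]; exact Or.inr hr.rt
    · rw [h.1]; exact Or.inl rfl
  · exact forest_add hr.forest hr.EJ hr.Es hr.rt hi0 hr.fin
  · intro j hj
    by_cases hj0 : j = i0
    · rw [hj0, mon_K_self]; exact hK0
    · rw [mon_K_of_ne _ _ _ _ _ hj0]
      exact hr.low j (hj.resolve_left hj0)
  · intro p q
    by_cases h : MEdge r i0 p q
    · rw [mon_Z_pos _ _ _ _ _ h, mon_Z_pos _ _ _ _ _ h.symm]
    · rw [mon_Z_neg _ _ _ _ _ h, mon_Z_neg _ _ _ _ _ (fun h' => h h'.symm)]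
      exact hr.symZ p q
  · intro p q hpq
    by_cases h : MEdge r i0 p q
    · rw [mon_Z_pos _ _ _ _ _ h]; exact hZ
    · rw [mon_Z_neg _ _ _ _ _ h]
      exact hr.good p q (hpq.resolve_right h)
  · intro j hj
    have hj0 : j ≠ i0 := fun h => hj (Or.inl h)
    rw [mon_X_of_ne _ _ _ _ _ hj0]
    exact hr.nX j (fun h => hj (Or.inr h))
  · intro p q hpq
    have h : ¬ MEdge r i0 p q := fun h => hpq (Or.inr h)
    rw [mon_Z_neg _ _ _ _ _ h]
    exact hr.nZ p q (fun h => hpq (Or.inl h))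
  · intro j hj
    by_cases hj0 : j = i0
    · rw [hj0, mon_K_self, mon_X_self]
      refine ((hr.val _ hr.rt).part Z).mono ?_
      intro φ hφ h1 h2
      refine ⟨hLg φ h1, (hKZ _ ?_).1 h2⟩
      have := hZ.z3 φ hφ.2
      cases φ with
      | nil k => exact this
      | mk k c nd lb R => exact this.1
    · rw [mon_K_of_ne _ _ _ _ _ hj0, mon_X_of_ne _ _ _ _ _ hj0]
      exact (hr.val j (hj.resolve_left hj0)).mono fun φ _ h1 h2 => ⟨hLg φ h1, h2⟩
  · intro p q hpq l hl hlp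
    by_cases h : MEdge r i0 p q
    · rw [mon_Z_pos _ _ _ _ _ h] at hl
      rcases h with ⟨rfl, rfl⟩ | ⟨rfl, rfl⟩
      · rw [mon_K_of_ne _ _ _ _ _ hne] at hlp
        rw [mon_K_self]
        exact (hKZ l hl).1 hlp
      · rw [mon_K_self] at hlp
        rw [mon_K_of_ne _ _ _ _ _ hne]
        exact (hKZ l hl).2 hlp
    · have h' := hpq.resolve_right h
      rw [mon_Z_neg _ _ _ _ _ h] at hl
      obtain ⟨h1, h2⟩ := hE1 p q h'
      rw [mon_K_of_ne _ _ _ _ _ h1] at hlp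
      rw [mon_K_of_ne _ _ _ _ _ h2]
      exact hr.adm p q h' l hl hlp
  · intro p q hpq f hf hfp
    by_cases h : MEdge r i0 p q
    · rw [mon_Z_pos _ _ _ _ _ h] at hf
      rcases h with ⟨rfl, rfl⟩ | ⟨rfl, rfl⟩
      · rw [mon_X_of_ne _ _ _ _ _ hne] at hfp
        rw [mon_X_self]
        exact ⟨hfp, hf⟩
      · rw [mon_X_self] at hfp
        rw [mon_X_of_ne _ _ _ _ _ hne]
        exact hfp.1
    · have h' := hpq.resolve_right h
      rw [mon_Z_neg _ _ _ _ _ h] at hf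
      obtain ⟨h1, h2⟩ := hE1 p q h'
      rw [mon_X_of_ne _ _ _ _ _ h1] at hfp
      rw [mon_X_of_ne _ _ _ _ _ h2]
      exact hr.sh p q h' f hf hfp

theorem ext_mon {Lg : Prom → Prop} {r : Sys Prom} (hr : Valid Lg r) {i0 : ℕ}
    (hi0 : i0 ∉ r.J) (Z : Fr Prom) (K0 : Set D) : Ext r (mon r i0 Z K0 r.rt) := by
  have hne : ∀ j ∈ r.J, j ≠ i0 := fun j hj h => hi0 (h ▸ hj)
  refine ⟨rfl, rfl, fun j hj => Or.inr hj, ?_, ?_, ?_, ?_, ?_⟩
  · intro p hp q hq
    refine ⟨fun h => h.resolve_right ?_, fun h => Or.inl h⟩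
    rintro (h | h)
    · exact hne q hq h.2
    · exact hne p hp h.1
  · intro j hj
    exact mon_K_of_ne _ _ _ _ _ (hne j hj)
  · intro p q hpq
    refine mon_Z_neg _ _ _ _ _ ?_
    rintro (h | h)
    · exact hne q (hr.EJ q p (hr.Es p q hpq)) h.2
    · exact hne p (hr.EJ p q hpq) h.1
  · intro j hj
    rw [mon_X_of_ne _ _ _ _ _ (hne j hj)]
    exact ⟨fun f hf => hf, fun _ _ _ _ h => h⟩
  · intro j hj φ _ m h1 h2
    rw [mon_X_of_ne _ _ _ _ _ (hne j hj)] at h1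
    exact (h2 h1).elim

end Pool.Agent.DL.P
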