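import Pool.Agent.DL.P.Kept
import Pool.Agent.H77.DP.Mon
import Pool.Agent.H7.DL.Frame

/-!
# DELTA (MP_d362fb_lc), Theorem H: lowering the level of the monitor
-/

set_option autoImplicit false

namespace Pool.Agent.DL.P

open H5.DL

open Classical in
/-- change the root and the level of one component -/
noncomputable def relv (y : Sys Prom) (i i0 : ℕ) (K0 : Set D) : Sys Prom :=
  { y with rt := i, K := fun j => if j = i0 then K0 else y.K j }

theorem relv_K_self (y : Sys Prom) (i i0 : ℕ) (K0 : Set D) : (relv y i i0 K0).K i0 = K0 :=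
  if_pos rfl

theorem relv_K_of_ne (y : Sys Prom) (i i0 : ℕ) (K0 : Set D) {j : ℕ} (h : j ≠ i0) :
    (relv y i i0 K0).K j = y.K j := if_neg h

theorem isLowerSet_dn (k : D) : IsLowerSet (dn k) := fun _ _ hab ha => Ll.of_le hab ha

/-- the invariant of the kept sequence: the monitor `i0` stays inside the frame `Z` -/
structure RInv (Z : Fr Prom) (k : D) (i0 : ℕ) (y : Sys Prom) : Prop where
  mem : i0 ∈ y.J
  top : y.K i0 = Set.univ
  lev : ∀ j ∈ y.J, j ≠ i0 → y.K j ⊆ dn k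
  has : ∀ f ∈ y.X i0, Z.Has f

theorem RInv.below {Z : Fr Prom} {k : D} {i i0 : ℕ} {y : Sys Prom} (h : RInv Z k i0 y) :
    Below (dn k) (relv y i i0 (dn k)) := by
  intro j hj
  by_cases hj0 : j = i0
  · rw [hj0, relv_K_self]
  · rw [relv_K_of_ne _ _ _ _ hj0]
    exact h.lev j hj hj0

theorem lab_in_frame {Z : Fr Prom} (hZ : Good Z) {φ : Prom} (h : φ ∈ Z.Q) : φ.lab ∈ Z.L := by
  have := hZ.z3 φ h
  cases φ with
  | nil k => exact this
  | mk k c nd lb R => exact this.1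

theorem relv_valid {Z : Fr Prom} (hZ : Good Z) {k : D} (hk : ∀ d ∈ Z.L, Ll d k) {i i0 : ℕ}
    {y : Sys Prom} (hy : Valid Legal y) (hI : RInv Z k i0 y) (hi : i ∈ y.J) :
    Valid (fun ψ => Ll ψ.lab k ∧ Legal ψ) (relv y i i0 (dn k)) where
  fin := hy.fin
  rt := hi
  Es := hy.Es
  EJ := hy.EJ
  forest := hy.forest
  low j hj := by
    by_cases hj0 : j = i0
    · rw [hj0, relv_K_self]; exact isLowerSet_dn k
    · rw [relv_K_of_ne _ _ _ _ hj0]; exact hy.low j hj
  symZ := hy.symZ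
  good := hy.good
  nX := hy.nX
  nZ := hy.nZ
  val j hj := by
    by_cases hj0 : j = i0
    · subst hj0
      rw [relv_K_self]
      refine (hy.val j hj).mono ?_
      intro φ hφ h1 _
      have h2 := hk _ (lab_in_frame hZ (hI.has _ hφ))
      exact ⟨⟨h2, h1⟩, h2⟩
    · rw [relv_K_of_ne _ _ _ _ hj0]
      refine (hy.val j hj).mono ?_
      intro φ _ h1 h2
      exact ⟨⟨hI.lev j hj hj0 h2, h1⟩, h2⟩
  adm p q hpq l hl hlp := by
    by_cases hq0 : q = i0
    · subst hq0
      rw [relv_K_self]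
      by_cases hp0 : p = q
      · subst hp0
        rw [relv_K_self] at hlp
        exact hlp
      · rw [relv_K_of_ne _ _ _ _ hp0] at hlp
        exact hI.lev p (hy.EJ p q hpq) hp0 hlp
    · rw [relv_K_of_ne _ _ _ _ hq0]
      by_cases hp0 : p = i0
      · subst hp0
        exact hy.adm p q hpq l hl (by rw [hI.top]; trivial)
      · rw [relv_K_of_ne _ _ _ _ hp0] at hlp
        exact hy.adm p q hpq l hl hlp
  sh := hy.sh

theorem relv_ext {k : D} {i i0 : ℕ} {y y' : Sys Prom} (h : Ext y y') (hi0 : i0 ∈ y.J) :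
    Ext (relv y i i0 (dn k)) (relv y' i i0 (dn k)) where
  n := h.n
  rt := rfl
  J := h.J
  E := h.E
  K j hj := by
    by_cases hj0 : j = i0
    · rw [hj0, relv_K_self, relv_K_self]
    · rw [relv_K_of_ne _ _ _ _ hj0, relv_K_of_ne _ _ _ _ hj0]; exact h.K j hj
  Z := h.Z
  X := h.X
  rel j hj φ hφ m h1 h2 := by
    obtain ⟨e, ρ, he, hemb⟩ := h.rel j hj φ hφ m h1 h2
    refine ⟨e, ρ, he, ⟨hemb.n, hemb.rt, hemb.J, hemb.inj, hemb.new, hemb.E, hemb.E', ?_,
      hemb.Z, hemb.X⟩⟩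
    intro a ha har
    have hne : ρ a ≠ i0 := fun h' => hemb.new a ha har (h' ▸ hi0)
    rw [relv_K_of_ne _ _ _ _ hne]
    exact hemb.K a ha har

theorem relv_time {Z : Fr Prom} (hZ : Good Z) {k : D} (hk : ∀ d ∈ Z.L, Ll d k) {i i0 : ℕ}
    {y y' : Sys Prom} (hy : Valid Legal y) (hI : RInv Z k i0 y) {m : ℕ} {C : ℕ → Set Node}
    (h : Time y y' m C) : Time (relv y i i0 (dn k)) (relv y' i i0 (dn k)) m C where
  n := h.n
  rt := rfl
  J := h.J
  E := h.E
  K := by
    funext j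
    by_cases hj0 : j = i0
    · rw [hj0, relv_K_self, relv_K_self]
    · rw [relv_K_of_ne _ _ _ _ hj0, relv_K_of_ne _ _ _ _ hj0, h.K]
  Z := h.Z
  X := h.X
  cone j := by
    by_cases hj0 : j = i0
    · subst hj0
      rw [relv_K_self]
      rcases h.cone j with h0 | ⟨hj, s, -, hs⟩
      · exact Or.inl h0
      · have hA : ({x | Fact.nd x ∈ y.X j} : Set Node).Finite :=
          (hy.val j hj).fin.preimage (fun a _ b _ hab => Fact.nd.inj hab)
        have hAZ : ({x | Fact.nd x ∈ y.X j} : Set Node) ⊆ Z.N := fun x hx => hI.has _ hx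
        rcases cone_frame (isLowerSet_dn k) hZ (fun d hd => hk d hd) hA hAZ s
          (fun x => hs x) with h1 | ⟨s', h1, h2⟩
        · exact Or.inl h1
        · exact Or.inr ⟨hj, s', h1, h2⟩
    · rw [relv_K_of_ne _ _ _ _ hj0]
      exact h.cone j
  sh := h.sh
  mn := h.mn
  free := h.free
  tok := h.tok
  rel := h.rel

theorem relv_step {Z : Fr Prom} (hZ : Good Z) {k : D} (hk : ∀ d ∈ Z.L, Ll d k) {i i0 : ℕ}
    {y y' : Sys Prom} (hy : Valid Legal y) (hI : RInv Z k i0 y) (hI' : RInv Z k i0 y')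
    (hi : i ∈ y.J) (h : Step Legal y y') :
    Step (fun ψ => Ll ψ.lab k ∧ Legal ψ) (relv y i i0 (dn k)) (relv y' i i0 (dn k)) := by
  refine ⟨relv_valid hZ hk h.1 hI' (h.mono.J hi), ?_⟩
  rcases h.2 with h | ⟨m, C, h⟩
  · exact Or.inl (relv_ext h hI.mem)
  · exact Or.inr ⟨m, C, relv_time hZ hk hy hI h⟩

/-- a sequence of steps which keeps the monitor inside its frame is a sequence of steps inside the
levels below `k` after the level of the monitor has been lowered -/
theorem relv_seq {Z : Fr Prom} (hZ : Good Z) {k : D} (hk : ∀ d ∈ Z.L, Ll d k) {i i0 : ℕ}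
    {y : ℕ → Sys Prom} {t : ℕ} (hs : IsSeq Legal y t) (hI : ∀ s ≤ t, RInv Z k i0 (y s))
    (hi : i ∈ (y 0).J) :
    StepsIn (fun ψ => Ll ψ.lab k ∧ Legal ψ) (dn k) (relv (y 0) i i0 (dn k))
      (relv (y t) i i0 (dn k)) := by
  refine chain_of_seq (fun s => relv (y s) i i0 (dn k)) t (fun s hst => ?_)
  exact ⟨relv_step hZ hk (hs.val s hst.le) (hI s hst.le) (hI (s + 1) hst)
    ((hs.mono 0 s (Nat.zero_le s) hst.le).J hi) (hs.st s hst), (hI (s + 1) hst).below⟩

end Pool.Agent.DL.P
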